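import Pool.Agent.W606.PS.Stm

/-! Project PS, piece FACTA: a rainbow triangle touching the region. -/

set_option autoImplicit false
set_option maxHeartbeats 4000000

open Set Relation

namespace Pool.Agent.W85.PS.FactA
open Pool.Agent.W606.PS

theorem rtg_const {V : Type} {G : SimpleGraph V} {S : Set V} {b : V → Bool}
    (h : ∀ u v, G.Adj u v → u ∈ S → v ∈ S → b u = b v) {u v : V}
    (p : ReflTransGen (fun a b => G.Adj a b ∧ a ∈ S ∧ b ∈ S) u v) : b u = b v := by
  induction p with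
  | refl => rfl
  | tail _ q ih => exact ih.trans (h _ _ q.1 q.2.1 q.2.2)

theorem third : ∀ j k : Fin 3, j ≠ k → ∃ i : Fin 3, i ≠ j ∧ i ≠ k := by decide

theorem perm3 : ∀ i j k p q r : Fin 3, i ≠ j → i ≠ k → j ≠ k → p ≠ q → p ≠ r → q ≠ r →
    ∃ s : Equiv.Perm (Fin 3), s i = p ∧ s j = q ∧ s k = r := by decide

theorem all3 : ∀ i j k l : Fin 3, i ≠ j → i ≠ k → j ≠ k → l = i ∨ l = j ∨ l = k := by decide

theorem main : S_FACTA := by
  intro V T G tv hS Om Z hR Z' hZZ hcon hdis hcov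
  by_contra hno
  push Not at hno
  obtain ⟨t0, s0, ht0⟩ := hR.rain
  have hZOm : ∀ i x, x ∈ Z i → x ∉ Om := by
    intro i x hx
    have : x ∈ (⋃ i, Z i) := mem_iUnion.2 ⟨i, hx⟩
    rw [hR.cov] at this
    exact this
  have hcase : ∀ x, x ∉ Om → ∃ i, x ∈ Z i := by
    intro x hx
    have : x ∈ (⋃ i, Z i) := by
      rw [hR.cov]
      exact hx
    exact mem_iUnion.1 this
  have hrain0 : Rain tv Z t0 := ⟨s0, ht0⟩
  have hr0' : Rain tv Z' t0 := ⟨s0, fun i => hZZ i (ht0 i)⟩
  obtain ⟨t', ht'ne, s', ht'⟩ := hS.three_a Z' hcon hdis hcov t0 hr0'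
  have ht'Om : ∀ i, tv t' i ∉ Om := fun i => hno t' ⟨s', ht'⟩ i
  have hrain' : Rain tv Z t' := by
    refine ⟨s', fun i => ?_⟩
    obtain ⟨j, hj⟩ := hcase _ (ht'Om (s' i))
    by_cases hij : i = j
    · rw [hij] at hj ⊢
      exact hj
    · exact absurd (hZZ j hj) (fun hh => (Set.disjoint_left.1 (hdis i j hij)) (ht' i) hh)
  -- vertices of rainbow triangles for Z are outside Om
  have hrOm : ∀ t, Rain tv Z t → ∀ i, tv t i ∉ Om := by
    rintro t ⟨s, hs⟩ i
    have := hs (s.symm i)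
    rw [Equiv.apply_symm_apply] at this
    exact hZOm _ _ this
  -- step (2)
  have h2 : ∀ (t : T) (p q r : Fin 3) (j k : Fin 3), j ≠ k → tv t p ∈ Om → tv t q ∈ Z j →
      tv t r ∈ Z k → False := by
    intro t p q r j k hjk hp hq hr
    obtain ⟨i, hij, hik⟩ := third j k hjk
    have hpq : p ≠ q := by
      rintro rfl
      exact hZOm _ _ hq hp
    have hpr : p ≠ r := by
      rintro rfl
      exact hZOm _ _ hr hp
    have hqr : q ≠ r := by
      rintro rfl
      exact (Set.disjoint_left.1 (hR.disj j k hjk)) hq hr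
    obtain ⟨s, hs1, hs2, hs3⟩ := perm3 i j k p q r hij hik hjk hpq hpr hqr
    obtain ⟨Y, hY⟩ : ∃ Y : Fin 3 → Set V, Y = fun l => if l = i then Z i ∪ Om else Z l := ⟨_, rfl⟩
    have hYi : Y i = Z i ∪ Om := by
      rw [hY]
      simp
    have hYl : ∀ l, l ≠ i → Y l = Z l := by
      intro l hl
      rw [hY]
      simp [hl]
    have hZY : ∀ l, Z l ⊆ Y l := by
      intro l
      by_cases hl : l = i
      · rw [hl, hYi]
        exact subset_union_left
      · rw [hYl l hl]
    have hYcon : ∀ l, Con G (Y l) := by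
      intro l
      by_cases hl : l = i
      · rw [hl, hYi]
        exact (hR.con i).union_tch hR.om (hR.tch i).symm
      · rw [hYl l hl]
        exact hR.con l
    have hdis1 : ∀ l, l ≠ i → Disjoint (Y i) (Y l) := by
      intro l hl
      rw [hYi, hYl l hl, Set.disjoint_union_left]
      refine ⟨hR.disj i l (Ne.symm hl), ?_⟩
      rw [Set.disjoint_left]
      intro x hx hx'
      exact hZOm _ _ hx' hx
    have hYdis : ∀ l m, l ≠ m → Disjoint (Y l) (Y m) := by
      intro l m hlm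
      by_cases hl : l = i
      · rw [hl]
        apply hdis1
        intro hm
        exact hlm (hl.trans hm.symm)
      · by_cases hm : m = i
        · rw [hm]
          exact (hdis1 l hl).symm
        · rw [hYl l hl, hYl m hm]
          exact hR.disj l m hlm
    have hYcov : (⋃ l, Y l) = univ := by
      rw [Set.eq_univ_iff_forall]
      intro x
      rw [mem_iUnion]
      by_cases hx : x ∈ Om
      · refine ⟨i, ?_⟩
        rw [hYi]
        exact Or.inr hx
      · obtain ⟨l, hl⟩ := hcase x hx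
        exact ⟨l, hZY l hl⟩
    have r0 : Rain tv Y t0 := ⟨s0, fun l => hZY l (ht0 l)⟩
    have r1 : Rain tv Y t' := by
      obtain ⟨s1, hs1'⟩ := hrain'
      exact ⟨s1, fun l => hZY l (hs1' l)⟩
    have r2 : Rain tv Y t := by
      refine ⟨s, fun l => ?_⟩
      have hl := all3 i j k l hij hik hjk
      rcases hl with rfl | rfl | rfl
      · rw [hs1, hYi]
        exact Or.inr hp
      · rw [hs2]
        exact hZY _ hq
      · rw [hs3]
        exact hZY _ hr
    rcases hS.three_b Y hYcon hYdis hYcov t0 t' t r0 r1 r2 with h | h | h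
    · exact ht'ne h.symm
    · rw [← h] at hp
      exact hrOm t0 hrain0 p hp
    · rw [← h] at hp
      exact hrOm t' hrain' p hp
  -- step (3)
  have hdisOm : Disjoint Om (Z 0) := by
    rw [Set.disjoint_left]
    intro x hx hx'
    exact hZOm _ _ hx' hx
  obtain ⟨b, hb⟩ := hS.coh Om (Z 0) hdisOm (by
    intro t i j hi hj k
    by_contra hk
    rw [mem_union] at hk
    push Not at hk
    obtain ⟨l, hl⟩ := hcase _ hk.1
    have hl0 : (0 : Fin 3) ≠ l := by
      rintro rfl
      exact hk.2 hl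
    exact h2 t i j k 0 l hl0 hi hj hl)
  have heq : ∀ u v, G.Adj u v → ¬ (u ∈ Om ∧ v ∈ Z 0) → ¬ (u ∈ Z 0 ∧ v ∈ Om) → b u = b v := by
    intro u v huv h1 h3
    by_contra hne
    rcases (hb u v huv).1 hne with h | h
    · exact h1 h
    · exact h3 h
  have hOmc : ∀ u ∈ Om, ∀ v ∈ Om, b u = b v := by
    intro u hu v hv
    apply rtg_const _ (hR.om.2 u hu v hv)
    intro x y hxy hx hy
    exact heq x y hxy (fun h => hZOm _ _ h.2 hy) (fun h => hZOm _ _ h.1 hx)
  have hZc : ∀ i, ∀ u ∈ Z i, ∀ v ∈ Z i, b u = b v := by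
    intro i u hu v hv
    apply rtg_const _ ((hR.con i).2 u hu v hv)
    intro x y hxy hx hy
    exact heq x y hxy (fun h => hZOm _ _ hx h.1) (fun h => hZOm _ _ hy h.2)
  obtain ⟨u, hu, v, hv, huv⟩ := hR.tch 0
  obtain ⟨u', hu', v', hv', huv'⟩ := hR.tch 1
  have e1 : b u ≠ b v := (hb u v huv).2 (Or.inl ⟨hu, hv⟩)
  have h01 : ∀ x, x ∈ Z 1 → x ∉ Z 0 := by
    intro x hx hx'
    exact (Set.disjoint_left.1 (hR.disj 0 1 (by decide))) hx' hx
  have e2 : b u' = b v' :=
    heq u' v' huv' (fun h => h01 _ hv' h.2) (fun h => hZOm _ _ h.1 hu')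
  have hadj : G.Adj (tv t0 (s0 0)) (tv t0 (s0 1)) := by
    rcases hS.clos t0 (s0 0) (s0 1) with h | h
    · exact absurd (ht0 0) (h ▸ h01 _ (ht0 1))
    · exact h
  have e3 : b (tv t0 (s0 0)) = b (tv t0 (s0 1)) :=
    heq _ _ hadj (fun h => h01 _ (ht0 1) h.2) (fun h => hZOm _ _ (ht0 1) h.2)
  apply e1
  rw [hOmc u hu u' hu', e2, hZc 1 v' hv' _ (ht0 1), ← e3, hZc 0 _ (ht0 0) v hv]

end Pool.Agent.W85.PS.FactA
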